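import Pool.Agent.Helper20.KP.StHB
import Pool.Agent.Helper36.KP.M_FF4
import Pool.Agent.Helper7.JT.Smooth

/-!
# Project KP, module HB6: ramification
-/

set_option autoImplicit false

namespace Pool.Agent.Helper27.KP

open MeasureTheory Filter Pool.Agent.Helper52.KP Pool.Agent.Helper67.NO Pool.Agent.Helper20.KP
open scoped Topology

universe u

lemma hb6_expand {N m : ℕ} (Y : (Fin N → ℂ) →ₗ[ℂ] (Fin m → ℂ)) (v : Fin N → ℂ) (i : Fin m) :
    Y v i = ∑ j, Y (Pi.single j 1) i * v j := by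
  have h1 : v = ∑ j, v j • (Pi.single j 1 : Fin N → ℂ) := by
    funext k
    simp [Finset.sum_apply, Pi.single_apply]
  conv_lhs => rw [h1]
  rw [map_sum, Finset.sum_apply]
  refine Finset.sum_congr rfl fun j _ => ?_
  rw [map_smul, Pi.smul_apply, smul_eq_mul, mul_comm]

/-- the derivative of a polynomial map has the Jacobian as determinant -/
lemma hb6_jac {m : ℕ} (P : Fin m → MvPolynomial (Fin m) ℂ) (z : Fin m → ℂ) :
    ∃ A : (Fin m → ℂ) →L[ℂ] (Fin m → ℂ),
      HasFDerivAt (fun x : Fin m → ℂ => fun i => ev (P i) x) A z ∧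
      A.det = ev (jac P) z := by
  refine ⟨ContinuousLinearMap.pi fun i => ∑ k, ev (MvPolynomial.pderiv k (P i)) z •
        (ContinuousLinearMap.proj k : (Fin m → ℂ) →L[ℂ] ℂ), ?_, ?_⟩
  · rw [hasFDerivAt_pi]
    intro i
    exact Pool.Agent.Helper36.KP.hasFDerivAt_ev (P i) z
  · have h1 : ((ContinuousLinearMap.pi fun i => ∑ k, ev (MvPolynomial.pderiv k (P i)) z •
        (ContinuousLinearMap.proj k : (Fin m → ℂ) →L[ℂ] ℂ) :
        (Fin m → ℂ) →L[ℂ] (Fin m → ℂ)) : (Fin m → ℂ) →ₗ[ℂ] (Fin m → ℂ)) =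
        Matrix.toLin' (Matrix.of fun i k => ev (MvPolynomial.pderiv k (P i)) z) := by
      ext k i
      simp [Pi.single_apply]
    rw [ContinuousLinearMap.det, h1, LinearMap.det_toLin']
    unfold jac
    rw [show (ev (Matrix.of fun i j => MvPolynomial.pderiv j (P i)).det z) =
      (MvPolynomial.eval z) (Matrix.of fun i j => MvPolynomial.pderiv j (P i)).det from rfl,
      RingHom.map_det]
    congr 1

lemma hb6_cont {m : ℕ} (G : (Fin m → ℂ) → (Fin m → ℂ)) (hG : Differentiable ℂ G) :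
    Continuous (fun w => (fderiv ℂ G w).det) := by
  have h1 : ContDiff ℂ 1 G := by
    rw [contDiff_pi]
    intro i
    exact Pool.Agent.Helper7.JT.contDiff_of_entire 1 (differentiable_pi.1 hG i)
  exact ContinuousLinearMap.continuous_det.comp (h1.continuous_fderiv (by norm_num))

lemma hb6_inj {m : ℕ} (A : (Fin m → ℂ) →L[ℂ] (Fin m → ℂ)) (h : A.det ≠ 0) :
    Function.Injective A := by
  have h1 : IsUnit (LinearMap.det (A : (Fin m → ℂ) →ₗ[ℂ] (Fin m → ℂ))) :=
    isUnit_iff_ne_zero.2 h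
  have h2 : IsUnit (A : (Fin m → ℂ) →ₗ[ℂ] (Fin m → ℂ)) := (LinearMap.isUnit_iff_isUnit_det _).2 h1
  exact ((Module.End.isUnit_iff _).1 h2).1

section

variable {g : Type u} [LieRing g] [LieAlgebra ℂ g] [FiniteDimensional ℂ g]

theorem HB6_core [LieAlgebra.IsSemisimple ℂ g] {x₀ : g} (hx₀ : x₀ ≠ 0)
    (hnil : IsNilpotent (LieAlgebra.ad ℂ g x₀)) (C : Ch x₀)
    (hJCO : StJCO.{u}) (hTRN : StTRN.{u}) (hLFT : StLFT.{u}) (hORB : StORB.{u})
    (hHB1 : StHB1.{u}) (hHB2 : StHB2.{u}) (hHB5 : StHB5.{u})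
    (Y : (Fin (Module.finrank ℂ g) → ℂ) →ₗ[ℂ] (Fin C.m → ℂ)) :
    ∃ S : (Fin (Module.finrank ℂ g) → ℂ) → ℂ, HolO (co '' {y : g | Orb x₀ y}) S ∧
      (∀ z, ev C.Δ z ≠ 0 → S (fun i => ev (C.pol i) z) * ev C.J z =
        ev (jac (fun i => ∑ j, MvPolynomial.C (Y (Pi.single j 1) i) * C.pol j)) z) ∧
      ∀ x ∈ co '' {y : g | Orb x₀ y}, S x ≠ 0 →
        ∀ c : (Fin C.m → ℂ) → (Fin (Module.finrank ℂ g) → ℂ), Differentiable ℂ c → c 0 = x →
          (∀ s, c s ∈ co '' {y : g | Orb x₀ y}) → Function.Injective (fderiv ℂ c 0) →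
          Function.Injective (fun ξ => Y (fderiv ℂ c 0 ξ)) := by
  obtain ⟨hic, hci, hph, -⟩ := hHB1 g x₀ hx₀ hnil C (mkOD C) rfl
  obtain ⟨hO1, hO2, hO3, hO4, hO5, hO6, hO7⟩ := hORB g
  set YL : (Fin (Module.finrank ℂ g) → ℂ) →L[ℂ] (Fin C.m → ℂ) :=
    LinearMap.toContinuousLinearMap Y with hYL
  have hYLv : ∀ v, YL v = Y v := fun v => rfl
  -- charts are differentiable
  have hE : ∀ (k : ℕ) (x : g) (X : Fin k → g), Differentiable ℂ (fun w => co (chart x X w)) :=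
    fun k x X => differentiableOn_univ.1 (hO4 k x X).1
  have hf : ∀ i, (fun x : OO x₀ => Y (co x.1) i) ∈ Hol x₀ 1 := by
    intro i
    refine ⟨fun x k X => ?_, fun x y c hc hy => ?_⟩
    · have h3 : Differentiable ℂ (fun w => YL (co (chart x.1 X w))) :=
        YL.differentiable.comp (hE k x.1 X)
      exact (differentiable_pi.1 h3) i
    · have h4 : co y.1 = c • co x.1 := by
        funext k
        simp [co, hy]
      change Y (co y.1) i = c ^ 1 * Y (co x.1) i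
      rw [h4, map_smul, Pi.smul_apply, smul_eq_mul, pow_one]
  have hdeg : hdim x₀ ≤ ∑ i : Fin C.m, 1 := by
    have := C.hm
    simp only [Finset.sum_const, Finset.card_univ, Fintype.card_fin, smul_eq_mul, mul_one]
    omega
  obtain ⟨s, hs, hs2⟩ := hJCO g x₀ hx₀ hnil C (fun _ => 1) (fun i x => Y (co x.1) i) hf hdeg
  obtain ⟨hS1, -, hS3⟩ := (hHB5 g x₀ hx₀ hnil C (∑ i : Fin C.m, 1 - hdim x₀)).1 s hs
  have hUo : IsOpen {z : Fin C.m → ℂ | ev C.Δ z ≠ 0} := by
    have : Continuous fun z : Fin C.m → ℂ => ev C.Δ z :=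
      continuous_iff_continuousAt.2 fun z =>
        (Pool.Agent.Helper36.KP.hasFDerivAt_ev C.Δ z).continuousAt
    exact isOpen_ne_fun this continuous_const
  set yp : Fin C.m → MvPolynomial (Fin C.m) ℂ :=
    fun i => ∑ j, MvPolynomial.C (Y (Pi.single j 1) i) * C.pol j with hyp
  have hyv : ∀ z i, ev (yp i) z = Y (co (C.Φ z)) i := by
    intro z i
    rw [hb6_expand Y]
    simp only [hyp, ev, map_sum, map_mul, MvPolynomial.eval_C]
    refine Finset.sum_congr rfl fun j _ => ?_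
    rw [C.pol_spec j z]
  have hco : ∀ z, (fun i => ev (C.pol i) z) = co (C.Φ z) :=
    fun z => funext fun i => (C.pol_spec i z).symm
  have hjac : ∀ z, ev C.Δ z ≠ 0 → tf s (co (C.Φ z)) * ev C.J z = ev (jac yp) z := by
    intro z hz
    have e1 : tf s (co (C.Φ z)) = ext s (C.Φ z) := by unfold tf; rw [hci]
    rw [e1]
    refine (hs2 z hz).symm.trans ?_
    unfold jac
    rw [show (ev (Matrix.of fun i j => MvPolynomial.pderiv j (yp i)).det z) =
      (MvPolynomial.eval z) (Matrix.of fun i j => MvPolynomial.pderiv j (yp i)).det from rfl,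
      RingHom.map_det]
    congr 1
    ext i j
    rw [RingHom.mapMatrix_apply, Matrix.map_apply, Matrix.of_apply, Matrix.of_apply]
    refine Eq.trans ?_ (Pool.Agent.Helper36.KP.dz_ev (yp i) z j)
    apply Pool.Agent.Helper36.KP.dz_congr
    filter_upwards [hUo.mem_nhds hz] with z' hz'
    have h5 : Orb x₀ (C.Φ z') := C.orb z' hz'
    rw [show MvPolynomial.eval z' (yp i) = ev (yp i) z' from rfl, hyv z' i]
    unfold ext
    rw [dif_pos h5]
  refine ⟨tf s, hS1, fun z hz => ?_, ?_⟩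
  · rw [hco z]; exact hjac z hz
  rintro x ⟨x', hx', rfl⟩ hSx c hc hc0 hcO hcinj
  have hx'O : Orb x₀ x' := hx'
  obtain ⟨hB21, -⟩ := hHB2 g x₀ hx₀ hnil C
  obtain ⟨X, hX⟩ := hB21 x' hx'O
  obtain ⟨ε, δ, a, b, τ, hε, hδ, ha, -, hτd, hτ, hden, -⟩ :=
    hTRN g x₀ hx₀ hnil C ⟨x', hx'O⟩ X hX
  set E : (Fin C.m → ℂ) → g := chart x' X with hEdef
  set G : (Fin C.m → ℂ) → (Fin C.m → ℂ) := fun w => Y (co (E w)) with hGdef
  have hGd : Differentiable ℂ G := YL.differentiable.comp (hE C.m x' X)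
  have hE0 : E 0 = x' := (hO4 C.m x' X).2.1
  have hEO : ∀ w, Orb x₀ (E w) := fun w => Orb.step _ _ hx'O
  -- the set W is open
  set W : Set (Fin C.m → ℂ) := {w | ‖w‖ < ε ∧ ext C.p₁ (chart x' X w) ≠ 0} with hW
  have hWo : IsOpen W := by
    have h6 : Continuous fun w => ext C.p₁ (chart x' X w) := by
      have h7 := (C.p1mem.1 ⟨x', hx'O⟩ C.m X).continuous
      refine h7.congr fun w => ?_
      unfold ext
      rw [dif_pos (hEO w)]
    exact (isOpen_lt continuous_norm continuous_const).inter (isOpen_ne_fun h6 continuous_const)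
  -- the estimate on W
  have hest : ∀ w ∈ W, a * ‖tf s (co (E w))‖ ^ 2 ≤ ‖(fderiv ℂ G w).det‖ ^ 2 := by
    intro w hw
    obtain ⟨hw1, hw2, hw3, -⟩ := hτ w hw.1 hw.2
    have hτw : HasFDerivAt τ (fderiv ℂ τ w) w :=
      ((hτd w hw).differentiableAt (hWo.mem_nhds hw)).hasFDerivAt
    obtain ⟨A, hA1, hA2⟩ := hb6_jac yp (τ w)
    have h8 : HasFDerivAt G (A.comp (fderiv ℂ τ w)) w := by
      refine (hA1.comp w hτw).congr_of_eventuallyEq ?_
      filter_upwards [hWo.mem_nhds hw] with w' hw'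
      obtain ⟨-, h9, -⟩ := hτ w' hw'.1 hw'.2
      funext i
      simp only [hGdef, Function.comp]
      rw [hyv, h9]
    rw [h8.fderiv]
    have h10 : (A.comp (fderiv ℂ τ w)).det = A.det * (fderiv ℂ τ w).det := by
      unfold ContinuousLinearMap.det
      rw [ContinuousLinearMap.toLinearMap_comp, LinearMap.det_comp]
    rw [h10, hA2, ← hjac (τ w) hw1, hw2]
    have h11 : ‖tf s (co (chart x' X w)) * ev C.J (τ w) * (fderiv ℂ τ w).det‖ ^ 2 =
        ‖tf s (co (chart x' X w))‖ ^ 2 *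
          (‖MvPolynomial.eval (τ w) C.J‖ ^ 2 * ‖(fderiv ℂ τ w).det‖ ^ 2) := by
      rw [norm_mul, norm_mul]; ring
    rw [show co (chart (⟨x', hx'O⟩ : OO x₀).1 X w) = co (chart x' X w) from rfl, h11, mul_comm a]
    exact mul_le_mul_of_nonneg_left hw3 (by positivity)
  -- pass to the limit
  have hdet0 : (fderiv ℂ G 0).det ≠ 0 := by
    have hcl : IsClosed {w | a * ‖tf s (co (E w))‖ ^ 2 ≤ ‖(fderiv ℂ G w).det‖ ^ 2} := by
      have h12 : Continuous fun w => tf s (co (E w)) := by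
        have h13 := hS1 C.m Set.univ (fun w => co (E w)) isOpen_univ
          (differentiableOn_univ.2 (hE C.m x' X)) (fun w _ => ⟨E w, hEO w, rfl⟩)
        exact (differentiableOn_univ.1 h13).continuous
      exact isClosed_le (continuous_const.mul (h12.norm.pow 2)) ((hb6_cont G hGd).norm.pow 2)
    have hmem : (0 : Fin C.m → ℂ) ∈ closure W := by
      rw [mem_closure_iff]
      intro V hV h0V
      obtain ⟨w, hw, hw'⟩ := hden (V ∩ {w | ‖w‖ < ε})
        (hV.inter (isOpen_lt continuous_norm continuous_const)) ⟨0, h0V, by simpa using hε⟩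
        (fun w hw => hw.2)
      exact ⟨w, hw.1, hw.2, hw'⟩
    have h14 : (0 : Fin C.m → ℂ) ∈ {w | a * ‖tf s (co (E w))‖ ^ 2 ≤ ‖(fderiv ℂ G w).det‖ ^ 2} :=
      closure_minimal (fun w hw => hest w hw) hcl hmem
    intro h0
    have h15 : a * ‖tf s (co (E 0))‖ ^ 2 ≤ ‖(fderiv ℂ G 0).det‖ ^ 2 := h14
    rw [h0, hE0] at h15
    have h16 : 0 < a * ‖tf s (co x')‖ ^ 2 := by
      have : 0 < ‖tf s (co x')‖ := norm_pos_iff.2 hSx
      positivity
    simp at h15
    linarith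
  have hinj := hb6_inj _ hdet0
  -- lift the chart c
  have hΨ0 : (ic (c 0) : g) = x' := by rw [hc0, hci]
  obtain ⟨V', ξ, hV'o, h0V', -, hξd, hξ0, hξ⟩ := hLFT g x₀ hx₀ hnil C.m Set.univ isOpen_univ
    (fun z => (ic (c z) : g)) (by
      unfold HolMap
      refine differentiableOn_univ.2 ?_
      have : (fun z => co (ic (c z) : g)) = c := funext fun z => hic (c z)
      rw [this]; exact hc)
    (fun z _ => by
      obtain ⟨y, hy, hy2⟩ := hcO z
      rw [← hy2, hci]; exact hy)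
    0 (Set.mem_univ _) C.m X (by rw [hΨ0]; exact hX)
  have hξ' : HasFDerivAt ξ (fderiv ℂ ξ 0) 0 :=
    ((hξd 0 h0V').differentiableAt (hV'o.mem_nhds h0V')).hasFDerivAt
  have hEd : HasFDerivAt (fun w => co (E w)) (fderiv ℂ (fun w => co (E w)) 0) (ξ 0) := by
    rw [hξ0]
    exact ((hE C.m x' X) 0).hasFDerivAt
  have hcd : HasFDerivAt c ((fderiv ℂ (fun w => co (E w)) 0).comp (fderiv ℂ ξ 0)) 0 := by
    refine (hEd.comp 0 hξ').congr_of_eventuallyEq ?_
    filter_upwards [hV'o.mem_nhds h0V'] with z hz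
    have h17 : (ic (c z) : g) = chart (ic (c 0) : g) X (ξ z) := hξ z hz
    rw [hΨ0] at h17
    have h18 : c z = co (ic (c z) : g) := (hic (c z)).symm
    rw [h18, h17]
    rfl
  have hGf : fderiv ℂ G 0 = YL.comp (fderiv ℂ (fun w => co (E w)) 0) := by
    have h19 : HasFDerivAt G (YL.comp (fderiv ℂ (fun w => co (E w)) 0)) 0 :=
      YL.hasFDerivAt.comp 0 ((hE C.m x' X) 0).hasFDerivAt
    exact h19.fderiv
  have hcf := hcd.fderiv
  have hξinj : Function.Injective (fderiv ℂ ξ 0) := by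
    intro u v huv
    apply hcinj
    rw [hcf]
    simp only [ContinuousLinearMap.comp_apply, huv]
  intro u v huv
  apply hξinj
  apply hinj
  rw [hGf]
  simp only [hcf, ContinuousLinearMap.comp_apply] at huv ⊢
  exact huv

end

theorem hHB6 (hJCO : StJCO.{u}) (hTRN : StTRN.{u}) (hLFT : StLFT.{u}) (hORB : StORB.{u})
    (hHB1 : StHB1.{u}) (hHB2 : StHB2.{u}) (hHB5 : StHB5.{u}) : StHB6.{u} := by
  intro g _ _ _ _ x₀ hx₀ hnil C D hD Y
  subst hD
  obtain ⟨S, h1, h2, h3⟩ := HB6_core hx₀ hnil C hJCO hTRN hLFT hORB hHB1 hHB2 hHB5 Y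
  exact ⟨S, h1, h2, fun x hx hS c hc => h3 x hx hS c hc.dif hc.zero hc.mem hc.inj⟩

end Pool.Agent.Helper27.KP
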