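import Pool.Agent.Helper52.KP.StL

/-!
# Project KP, module BKN (Bochner-Kodaira identity for test forms)
-/

set_option autoImplicit false

namespace Pool.Agent.Helper27.KP

open MeasureTheory Filter
open scoped ContDiff ComplexOrder Topology
open Pool.Agent.Helper52.KP

noncomputable section

variable {m : ℕ}

/-- the weight as a complex function -/
private def ee (ψ : (Fin m → ℂ) → ℝ) (z : Fin m → ℂ) : ℂ := Complex.exp (-1 * cf ψ z)

/-- the operator `∂_j - ψ_j` -/
private def DD (ψ : (Fin m → ℂ) → ℝ) (j : Fin m) (f : (Fin m → ℂ) → ℂ) (z : Fin m → ℂ) : ℂ :=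
  dz j f z - dz j (cf ψ) z * f z

/-- the weighted inner product -/
private def JJ (ψ : (Fin m → ℂ) → ℝ) (f g : (Fin m → ℂ) → ℂ) : ℂ :=
  ∫ z, f z * star (g z) * ee ψ z

private theorem two_le : (2 : WithTop ℕ∞) ≤ ∞ := by
  change ((2 : ℕ∞) : WithTop ℕ∞) ≤ ((⊤ : ℕ∞) : WithTop ℕ∞)
  exact WithTop.coe_le_coe.mpr le_top

private theorem ee_eq (ψ : (Fin m → ℂ) → ℝ) (z : Fin m → ℂ) :
    ee ψ z = ((Real.exp (-ψ z) : ℝ) : ℂ) := by
  simp [ee, cf]

private theorem cf_smooth {ψ : (Fin m → ℂ) → ℝ} (hψ : ContDiff ℝ ∞ ψ) : ContDiff ℝ ∞ (cf ψ) :=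
  Complex.ofRealCLM.contDiff.comp hψ

private theorem ee_smooth {ψ : (Fin m → ℂ) → ℝ} (hψ : ContDiff ℝ ∞ ψ) : ContDiff ℝ ∞ (ee ψ) :=
  (contDiff_const.mul (cf_smooth hψ)).cexp

private theorem da {f : (Fin m → ℂ) → ℂ} (hf : ContDiff ℝ ∞ f) (z : Fin m → ℂ) :
    DifferentiableAt ℝ f z := hf.differentiable (by simp) z

private theorem star_smooth {f : (Fin m → ℂ) → ℂ} (hf : ContDiff ℝ ∞ f) :
    ContDiff ℝ ∞ (fun z => star (f z)) := by
  have h := Complex.conjCLE.contDiff (n := ∞) (𝕜 := ℝ)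
  exact h.comp hf

private theorem dz_const (j : Fin m) (c : ℂ) (z : Fin m → ℂ) : dz j (fun _ => c) z = 0 := by
  simp [dz]

private theorem dz_ee (hC : StCAL) {ψ : (Fin m → ℂ) → ℝ} (hψ : ContDiff ℝ ∞ ψ) (j : Fin m)
    (z : Fin m → ℂ) : dz j (ee ψ) z = - (dz j (cf ψ) z * ee ψ z) := by
  have h1 : ContDiff ℝ ∞ (fun z => -1 * cf ψ z) := contDiff_const.mul (cf_smooth hψ)
  have h2 := ((hC m j j (fun z => -1 * cf ψ z) (cf ψ) z).1 (da h1 z)
    (da (cf_smooth hψ) z)).2.2.2.2.2.2.1
  have h3 := ((hC m j j (fun _ => (-1 : ℂ)) (cf ψ) z).1 (differentiableAt_const _)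
    (da (cf_smooth hψ) z)).2.2.1
  change dz j (fun z => Complex.exp (-1 * cf ψ z)) z = _
  rw [h2, h3, dz_const]
  unfold ee
  ring

private theorem smooth_dz (hC : StCAL) {f : (Fin m → ℂ) → ℂ} (hf : ContDiff ℝ ∞ f) (j : Fin m) :
    ContDiff ℝ ∞ (dz j f) ∧ ContDiff ℝ ∞ (db j f) := by
  have h := (hC m j j f f 0).2.2.2.2 Set.univ isOpen_univ hf.contDiffOn
  exact ⟨contDiffOn_univ.mp h.1, contDiffOn_univ.mp h.2⟩

private theorem dz_supp {f : (Fin m → ℂ) → ℂ} (hf : HasCompactSupport f) (j : Fin m) :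
    HasCompactSupport (dz j f) ∧ HasCompactSupport (db j f) := by
  have h : ∀ x, x ∉ tsupport f → fderiv ℝ f x = 0 := by
    intro x hx
    by_contra hne
    exact hx (support_fderiv_subset ℝ (by simpa [Function.mem_support] using hne))
  constructor
  · refine HasCompactSupport.intro hf.isCompact fun x hx => ?_
    simp [dz, h x hx]
  · refine HasCompactSupport.intro hf.isCompact fun x hx => ?_
    simp [db, h x hx]

private theorem DD_smooth (hC : StCAL) {ψ : (Fin m → ℂ) → ℝ} (hψ : ContDiff ℝ ∞ ψ)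
    {f : (Fin m → ℂ) → ℂ} (hf : ContDiff ℝ ∞ f) (j : Fin m) : ContDiff ℝ ∞ (DD ψ j f) :=
  (smooth_dz hC hf j).1.sub ((smooth_dz hC (cf_smooth hψ) j).1.mul hf)

private theorem DD_supp {ψ : (Fin m → ℂ) → ℝ} {f : (Fin m → ℂ) → ℂ} (hf : HasCompactSupport f)
    (j : Fin m) : HasCompactSupport (DD ψ j f) := by
  have h : ∀ x, x ∉ tsupport f → fderiv ℝ f x = 0 := by
    intro x hx
    by_contra hne
    exact hx (support_fderiv_subset ℝ (by simpa [Function.mem_support] using hne))
  refine HasCompactSupport.intro hf.isCompact fun x hx => ?_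
  have h1 := image_eq_zero_of_notMem_tsupport hx
  simp [DD, dz, h x hx, h1]

private theorem JJ_int {ψ : (Fin m → ℂ) → ℝ} (hψ : ContDiff ℝ ∞ ψ) {f g : (Fin m → ℂ) → ℂ}
    (hf : Continuous f) (hg : Continuous g) (hs : HasCompactSupport g) :
    Integrable (fun z => f z * star (g z) * ee ψ z) := by
  have he := (ee_smooth hψ).continuous
  refine Continuous.integrable_of_hasCompactSupport ((hf.mul hg.star).mul he) ?_
  refine HasCompactSupport.intro hs.isCompact fun x hx => ?_
  rw [image_eq_zero_of_notMem_tsupport hx, star_zero, mul_zero, zero_mul]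

/-- adjoint of `∂_j - ψ_j` -/
private theorem adj (hC : StCAL) (hI : StIBP) {ψ : (Fin m → ℂ) → ℝ} (hψ : ContDiff ℝ ∞ ψ)
    {f g : (Fin m → ℂ) → ℂ} (hf : ContDiff ℝ ∞ f) (hg : ContDiff ℝ ∞ g)
    (hs : HasCompactSupport g) (j : Fin m) : JJ ψ (DD ψ j f) g = - JJ ψ f (db j g) := by
  have he := ee_smooth hψ
  have hss : HasCompactSupport (fun z => star (g z)) := by
    refine HasCompactSupport.intro hs.isCompact fun x hx => ?_
    rw [image_eq_zero_of_notMem_tsupport hx, star_zero]
  have h1 := (hI m j (fun z => f z * ee ψ z) (fun z => star (g z))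
    ((hf.mul he).of_le (by simp)) ((star_smooth hg).of_le (by simp)) hss).1
  have h2 : ∀ z, dz j (fun z => f z * ee ψ z) z = DD ψ j f z * ee ψ z := by
    intro z
    rw [((hC m j j f (ee ψ) z).1 (da hf z) (da he z)).2.2.1, dz_ee hC hψ]
    unfold DD
    ring
  have h3 : ∀ z, dz j (fun z => star (g z)) z = star (db j g z) := by
    intro z
    exact ((hC m j j g g z).1 (da hg z) (da hg z)).2.2.2.2.1
  unfold JJ
  calc ∫ z, DD ψ j f z * star (g z) * ee ψ z
      = ∫ z, dz j (fun z => f z * ee ψ z) z * star (g z) := by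
        refine integral_congr_ae (Filter.Eventually.of_forall fun z => ?_)
        change DD ψ j f z * star (g z) * ee ψ z = dz j (fun z => f z * ee ψ z) z * star (g z)
        rw [h2]; ring
    _ = - ∫ z, f z * ee ψ z * dz j (fun z => star (g z)) z := h1
    _ = - ∫ z, f z * star (db j g z) * ee ψ z := by
        congr 1
        refine integral_congr_ae (Filter.Eventually.of_forall fun z => ?_)
        change f z * ee ψ z * dz j (fun z => star (g z)) z = f z * star (db j g z) * ee ψ z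
        rw [h3]; ring

private theorem JJ_conj (ψ : (Fin m → ℂ) → ℝ) (f g : (Fin m → ℂ) → ℂ) :
    JJ ψ g f = star (JJ ψ f g) := by
  unfold JJ
  have h := integral_conj (μ := (volume : Measure (Fin m → ℂ)))
    (f := fun z => f z * star (g z) * ee ψ z)
  refine Eq.trans ?_ h
  refine integral_congr_ae (Filter.Eventually.of_forall fun z => ?_)
  change g z * star (f z) * ee ψ z = (starRingEnd ℂ) (f z * star (g z) * ee ψ z)
  rw [ee_eq, map_mul, map_mul, Complex.conj_ofReal]
  change _ = star (f z) * star (star (g z)) * _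
  rw [star_star]
  ring

/-- commutator -/
private theorem com (hC : StCAL) {ψ : (Fin m → ℂ) → ℝ} (hψ : ContDiff ℝ ∞ ψ)
    {f : (Fin m → ℂ) → ℂ} (hf : ContDiff ℝ ∞ f) (j k : Fin m) (z : Fin m → ℂ) :
    db j (DD ψ k f) z = DD ψ k (db j f) z - hes ψ z k j * f z := by
  have hc := cf_smooth hψ
  have hcd := (smooth_dz hC hc k).1
  have hfd := (smooth_dz hC hf k).1
  have h1 : ContDiff ℝ ∞ (fun z => dz k (cf ψ) z * f z) := hcd.mul hf
  have h1' : ContDiff ℝ ∞ (fun z => (-1 : ℂ) * (dz k (cf ψ) z * f z)) := contDiff_const.mul h1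
  have e1 : DD ψ k f = fun z => dz k f z + (-1 : ℂ) * (dz k (cf ψ) z * f z) := by
    funext z
    unfold DD
    ring
  have e2 := ((hC m j j (dz k f) (fun z => (-1 : ℂ) * (dz k (cf ψ) z * f z)) z).1 (da hfd z)
    (da h1' z)).2.1
  have e3 := ((hC m j j (fun _ => (-1 : ℂ)) (fun z => dz k (cf ψ) z * f z) z).1
    (differentiableAt_const _) (da h1 z)).2.2.2.1
  have e4 := ((hC m j j (dz k (cf ψ)) f z).1 (da hcd z) (da hf z)).2.2.2.1
  have e5 : db j (fun _ : Fin m → ℂ => (-1 : ℂ)) z = 0 := by simp [db]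
  have e6 := ((hC m k j f f z).2.2.2.1 (hf.contDiffAt.of_le two_le)).1
  have e7 := ((hC m k j (cf ψ) (cf ψ) z).2.2.2.1 (hc.contDiffAt.of_le two_le)).1
  rw [e1, e2, e3, e4, e5, e6, e7]
  unfold DD hes
  rw [Matrix.of_apply]
  ring

private theorem hes_star (hC : StCAL) {ψ : (Fin m → ℂ) → ℝ} (hψ : ContDiff ℝ ∞ ψ) (j k : Fin m)
    (z : Fin m → ℂ) : star (hes ψ z k j) = hes ψ z j k := by
  have hc := cf_smooth hψ
  have hcb := (smooth_dz hC hc j).2
  unfold hes
  rw [Matrix.of_apply, Matrix.of_apply]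
  have h1 := ((hC m k k (db j (cf ψ)) (cf ψ) z).1 (da hcb z) (da hc z)).2.2.2.2.2.1
  have h2 : (fun z => star (db j (cf ψ) z)) = dz j (cf ψ) := by
    funext y
    have h3 := ((hC m j j (cf ψ) (cf ψ) y).1 (da hc y) (da hc y)).2.2.2.2.1
    rw [← h3]
    congr 1
    funext x
    simp [cf]
  rw [← h1, h2]
  exact ((hC m j k (cf ψ) (cf ψ) z).2.2.2.1 (hc.contDiffAt.of_le two_le)).1

private theorem key (hC : StCAL) (hI : StIBP) {ψ : (Fin m → ℂ) → ℝ} (hψ : ContDiff ℝ ∞ ψ)
    {f g : (Fin m → ℂ) → ℂ} (hf : ContDiff ℝ ∞ f) (hfs : HasCompactSupport f)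
    (hg : ContDiff ℝ ∞ g) (hgs : HasCompactSupport g) (j k : Fin m) :
    JJ ψ (DD ψ j f) (DD ψ k g) = JJ ψ (db k f) (db j g) +
      ∫ z, hes ψ z j k * f z * star (g z) * ee ψ z := by
  have hgj := (smooth_dz hC hg j).2
  have hgjs := (dz_supp hgs j).2
  have h1 := adj hC hI hψ hf (DD_smooth hC hψ hg k) (DD_supp hgs k (ψ := ψ)) j
  have h2 : JJ ψ f (db j (DD ψ k g)) = JJ ψ f (DD ψ k (db j g)) -
      ∫ z, hes ψ z j k * f z * star (g z) * ee ψ z := by
    unfold JJ
    have hi1 := JJ_int hψ hf.continuous (DD_smooth hC hψ hgj k).continuous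
      (DD_supp hgjs k (ψ := ψ))
    have hes_c : Continuous (fun z => hes ψ z j k) := by
      unfold hes
      simp only [Matrix.of_apply]
      exact (smooth_dz hC (smooth_dz hC (cf_smooth hψ) k).2 j).1.continuous
    have hi2 : Integrable (fun z => hes ψ z j k * f z * star (g z) * ee ψ z) :=
      JJ_int hψ (hes_c.mul hf.continuous) hg.continuous hgs
    rw [← integral_sub hi1 hi2]
    refine integral_congr_ae (Filter.Eventually.of_forall fun z => ?_)
    change f z * star (db j (DD ψ k g) z) * ee ψ z =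
      f z * star (DD ψ k (db j g) z) * ee ψ z - hes ψ z j k * f z * star (g z) * ee ψ z
    rw [com hC hψ hg, star_sub, star_mul', hes_star hC hψ]
    ring
  have h3 : JJ ψ f (DD ψ k (db j g)) = - JJ ψ (db k f) (db j g) := by
    rw [JJ_conj ψ (DD ψ k (db j g)) f, adj hC hI hψ hgj hf hfs k, star_neg, ← JJ_conj]
  rw [h1, h2, h3]
  ring

private theorem nrm_eq {ψ : (Fin m → ℂ) → ℝ} (hψ : ContDiff ℝ ∞ ψ) {F : (Fin m → ℂ) → ℂ}
    (hF : Continuous F) (hs : HasCompactSupport F) : nrm Set.univ ψ F = (JJ ψ F F).re := by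
  unfold nrm JJ
  rw [Measure.restrict_univ]
  have h := integral_re (JJ_int hψ hF hF hs)
  refine Eq.trans ?_ h
  refine integral_congr_ae (Filter.Eventually.of_forall fun z => ?_)
  change ‖F z‖ ^ 2 * Real.exp (-ψ z) = (F z * star (F z) * ee ψ z).re
  rw [ee_eq, Complex.re_mul_ofReal]
  congr 1
  change _ = (F z * (starRingEnd ℂ) (F z)).re
  rw [Complex.mul_conj, Complex.ofReal_re, Complex.normSq_eq_norm_sq]

theorem hBKN (hC : StCAL) (hI : StIBP) : StBKN := by
  intro m ψ hψ η hη
  have hs : ∀ j, ContDiff ℝ ∞ (η j) := fun j => (hη j).1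
  have hc : ∀ j, HasCompactSupport (η j) := fun j => (hη j).2.1
  have hDs : ∀ j, ContDiff ℝ ∞ (DD ψ j (η j)) := fun j => DD_smooth hC hψ (hs j) j
  have hDc : ∀ j, HasCompactSupport (DD ψ j (η j)) := fun j => DD_supp (hc j) j
  have hbs : ∀ j k, ContDiff ℝ ∞ (db j (η k)) := fun j k => (smooth_dz hC (hs k) j).2
  have hbc : ∀ j k, HasCompactSupport (db j (η k)) := fun j k => (dz_supp (hc k) j).2
  have hes_c : ∀ j k, Continuous (fun z => hes ψ z j k) := by
    intro j k
    unfold hes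
    simp only [Matrix.of_apply]
    exact (smooth_dz hC (smooth_dz hC (cf_smooth hψ) k).2 j).1.continuous
  -- the first term
  have hT : nrm Set.univ ψ (Tad ψ η) = (∑ j, ∑ k, JJ ψ (DD ψ j (η j)) (DD ψ k (η k))).re := by
    have e1 : Tad ψ η = fun z => - ∑ j, DD ψ j (η j) z := rfl
    have hTc : Continuous (Tad ψ η) := by
      rw [e1]
      exact (continuous_finsetSum _ fun j _ => (hDs j).continuous).neg
    have hTs : HasCompactSupport (Tad ψ η) := by
      rw [e1]
      refine HasCompactSupport.intro (isCompact_iUnion fun j => (hDc j).isCompact) fun x hx => ?_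
      rw [Set.mem_iUnion] at hx
      push Not at hx
      rw [neg_eq_zero]
      exact Finset.sum_eq_zero fun j _ => image_eq_zero_of_notMem_tsupport (hx j)
    rw [nrm_eq hψ hTc hTs]
    congr 1
    unfold JJ
    have hint : ∀ j k, Integrable (fun z => DD ψ j (η j) z * star (DD ψ k (η k) z) * ee ψ z) :=
      fun j k => JJ_int hψ (hDs j).continuous (hDs k).continuous (hDc k)
    have h1 : ∀ j, (∑ k, ∫ z, DD ψ j (η j) z * star (DD ψ k (η k) z) * ee ψ z) =
        ∫ z, ∑ k, DD ψ j (η j) z * star (DD ψ k (η k) z) * ee ψ z :=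
      fun j => (integral_finsetSum _ fun k _ => hint j k).symm
    rw [Finset.sum_congr rfl fun j _ => h1 j]
    rw [← integral_finsetSum _ fun j _ => integrable_finsetSum _ fun k _ => hint j k]
    refine integral_congr_ae (Filter.Eventually.of_forall fun z => ?_)
    change Tad ψ η z * star (Tad ψ η z) * ee ψ z =
      ∑ j, ∑ k, DD ψ j (η j) z * star (DD ψ k (η k) z) * ee ψ z
    rw [e1]
    change - (∑ j, DD ψ j (η j) z) * star (- ∑ j, DD ψ j (η j) z) * ee ψ z = _
    rw [star_neg, star_sum, neg_mul_neg, Finset.sum_mul_sum, Finset.sum_mul]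
    exact Finset.sum_congr rfl fun j _ => Finset.sum_mul _ _ _
  have hkey : ∀ j k, JJ ψ (DD ψ j (η j)) (DD ψ k (η k)) = JJ ψ (db k (η j)) (db j (η k)) +
      ∫ z, hes ψ z j k * η j z * star (η k z) * ee ψ z :=
    fun j k => key hC hI hψ (hs j) (hc j) (hs k) (hc k) j k
  have hH : (∑ j, ∑ k, ∫ z, hes ψ z j k * η j z * star (η k z) * ee ψ z).re =
      ∫ z, hf (hes ψ z) (fun j => η j z) * Real.exp (-ψ z) := by
    have hint : ∀ j k, Integrable (fun z => hes ψ z j k * η j z * star (η k z) * ee ψ z) :=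
      fun j k => JJ_int hψ ((hes_c j k).mul (hs j).continuous) (hs k).continuous (hc k)
    have h1 : ∀ j, (∑ k, ∫ z, hes ψ z j k * η j z * star (η k z) * ee ψ z) =
        ∫ z, ∑ k, hes ψ z j k * η j z * star (η k z) * ee ψ z :=
      fun j => (integral_finsetSum _ fun k _ => hint j k).symm
    rw [Finset.sum_congr rfl fun j _ => h1 j]
    rw [← integral_finsetSum _ fun j _ => integrable_finsetSum _ fun k _ => hint j k]
    have h2 := integral_re (integrable_finsetSum (Finset.univ : Finset (Fin m)) fun j _ =>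
      integrable_finsetSum (Finset.univ : Finset (Fin m)) fun k _ => hint j k)
    refine Eq.trans h2.symm ?_
    refine integral_congr_ae (Filter.Eventually.of_forall fun z => ?_)
    change (∑ j, ∑ k, hes ψ z j k * η j z * star (η k z) * ee ψ z).re =
      hf (hes ψ z) (fun j => η j z) * Real.exp (-ψ z)
    unfold hf
    rw [← Complex.re_mul_ofReal, ← ee_eq, Finset.sum_mul]
    congr 1
    exact Finset.sum_congr rfl fun j _ => (Finset.sum_mul _ _ _).symm
  -- the curl terms
  have hcurl : ∀ j k, nrm Set.univ ψ (fun z => db j (η k) z - db k (η j) z) =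
      nrm Set.univ ψ (db j (η k)) + nrm Set.univ ψ (db k (η j)) -
        (JJ ψ (db j (η k)) (db k (η j))).re - (JJ ψ (db k (η j)) (db j (η k))).re := by
    intro j k
    have hcont : Continuous (fun z => db j (η k) z - db k (η j) z) :=
      (hbs j k).continuous.sub (hbs k j).continuous
    have hsup : HasCompactSupport (fun z => db j (η k) z - db k (η j) z) := (hbc j k).sub (hbc k j)
    rw [nrm_eq hψ hcont hsup, nrm_eq hψ (hbs j k).continuous (hbc j k),
      nrm_eq hψ (hbs k j).continuous (hbc k j)]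
    have h11 := JJ_int hψ (hbs j k).continuous (hbs j k).continuous (hbc j k)
    have h22 := JJ_int hψ (hbs k j).continuous (hbs k j).continuous (hbc k j)
    have h12 := JJ_int hψ (hbs j k).continuous (hbs k j).continuous (hbc k j)
    have h21 := JJ_int hψ (hbs k j).continuous (hbs j k).continuous (hbc j k)
    have hJ : JJ ψ (fun z => db j (η k) z - db k (η j) z) (fun z => db j (η k) z - db k (η j) z) =
        JJ ψ (db j (η k)) (db j (η k)) + JJ ψ (db k (η j)) (db k (η j)) -
          JJ ψ (db j (η k)) (db k (η j)) - JJ ψ (db k (η j)) (db j (η k)) := by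
      unfold JJ
      have hA : Integrable (fun z => db j (η k) z * star (db j (η k) z) * ee ψ z +
          db k (η j) z * star (db k (η j) z) * ee ψ z) := h11.add h22
      have hB : Integrable (fun z => db j (η k) z * star (db j (η k) z) * ee ψ z +
          db k (η j) z * star (db k (η j) z) * ee ψ z -
          db j (η k) z * star (db k (η j) z) * ee ψ z) := hA.sub h12
      rw [← integral_add h11 h22, ← integral_sub hA h12, ← integral_sub hB h21]
      refine integral_congr_ae (Filter.Eventually.of_forall fun z => ?_)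
      change (db j (η k) z - db k (η j) z) * star (db j (η k) z - db k (η j) z) * ee ψ z =
        db j (η k) z * star (db j (η k) z) * ee ψ z +
          db k (η j) z * star (db k (η j) z) * ee ψ z -
          db j (η k) z * star (db k (η j) z) * ee ψ z -
          db k (η j) z * star (db j (η k) z) * ee ψ z
      rw [star_sub]
      ring
    rw [hJ, Complex.sub_re, Complex.sub_re, Complex.add_re]
  rw [hT]
  have hsum : (∑ j, ∑ k, JJ ψ (DD ψ j (η j)) (DD ψ k (η k))) =
      (∑ j, ∑ k, JJ ψ (db k (η j)) (db j (η k))) +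
        ∑ j, ∑ k, ∫ z, hes ψ z j k * η j z * star (η k z) * ee ψ z := by
    rw [← Finset.sum_add_distrib]
    refine Finset.sum_congr rfl fun j _ => ?_
    rw [← Finset.sum_add_distrib]
    exact Finset.sum_congr rfl fun k _ => hkey j k
  rw [hsum, Complex.add_re, hH]
  have hcs : (∑ j, ∑ k, nrm Set.univ ψ (fun z => db j (η k) z - db k (η j) z)) =
      2 * (∑ j, ∑ k, nrm Set.univ ψ (db k (η j))) -
        2 * (∑ j, ∑ k, JJ ψ (db k (η j)) (db j (η k))).re := by
    have h1 : ∀ j k, nrm Set.univ ψ (fun z => db j (η k) z - db k (η j) z) =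
      nrm Set.univ ψ (db j (η k)) + nrm Set.univ ψ (db k (η j)) -
        (JJ ψ (db j (η k)) (db k (η j))).re - (JJ ψ (db k (η j)) (db j (η k))).re := hcurl
    rw [Finset.sum_congr rfl fun j _ => Finset.sum_congr rfl fun k _ => h1 j k]
    simp only [Finset.sum_sub_distrib, Finset.sum_add_distrib]
    have h2 : (∑ j, ∑ k, nrm Set.univ ψ (db j (η k))) = ∑ j, ∑ k, nrm Set.univ ψ (db k (η j)) :=
      Finset.sum_comm
    have h3 : (∑ j, ∑ k, (JJ ψ (db j (η k)) (db k (η j))).re) =
        ∑ j, ∑ k, (JJ ψ (db k (η j)) (db j (η k))).re := Finset.sum_comm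
    have h4 : (∑ j, ∑ k, JJ ψ (db k (η j)) (db j (η k))).re =
        ∑ j, ∑ k, (JJ ψ (db k (η j)) (db j (η k))).re := by
      rw [Complex.re_sum]
      exact Finset.sum_congr rfl fun j _ => Complex.re_sum _ _
    rw [h2, h3, h4]
    ring
  rw [hcs]
  ring

end

end Pool.Agent.Helper27.KP
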