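import Pool.Agent.Helper68.KP.StS

/-!
# Project KP, module SLP: the slope at infinity
-/

set_option autoImplicit false

namespace Pool.Agent.Helper27.KP

open Pool.Agent.Helper52.KP Pool.Agent.Helper68.KP Filter Topology Matrix

open scoped ComplexOrder

/-- spectral form -/
lemma slp_spec {N : ℕ} {ξ : Matrix (Fin N) (Fin N) ℂ} (h : ξ.IsHermitian) :
    ∃ (U : Matrix (Fin N) (Fin N) ℂ) (d : Fin N → ℝ), Uᴴ * U = 1 ∧ U * Uᴴ = 1 ∧
      ξ = U * diagonal (fun a => (d a : ℂ)) * Uᴴ := by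
  refine ⟨(h.eigenvectorUnitary : Matrix (Fin N) (Fin N) ℂ), h.eigenvalues, ?_, ?_, ?_⟩
  · have := Unitary.coe_star_mul_self h.eigenvectorUnitary
    simpa [Matrix.star_eq_conjTranspose] using this
  · have := Unitary.coe_mul_star_self h.eigenvectorUnitary
    simpa [Matrix.star_eq_conjTranspose] using this
  · have h1 := h.spectral_theorem
    rw [Unitary.conjStarAlgAut_apply] at h1
    exact h1

lemma slp_exp {N : ℕ} (U : Matrix (Fin N) (Fin N) ℂ) (d : Fin N → ℝ) (h1 : Uᴴ * U = 1)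
    (h2 : U * Uᴴ = 1) (s : ℝ) :
    NormedSpace.exp (-((s : ℂ) • (U * diagonal (fun a => (d a : ℂ)) * Uᴴ))) =
      U * diagonal (fun a => ((Real.exp (-(s * d a)) : ℝ) : ℂ)) * Uᴴ := by
  have hinv : U⁻¹ = Uᴴ := Matrix.inv_eq_left_inv h1
  have hU : IsUnit U := ⟨⟨U, Uᴴ, h2, h1⟩, rfl⟩
  have e1 : -((s : ℂ) • (U * diagonal (fun a => (d a : ℂ)) * Uᴴ)) =
      U * diagonal (fun a => (-(s * d a) : ℂ)) * U⁻¹ := by
    rw [hinv, ← Matrix.smul_mul, ← Matrix.mul_smul, ← Matrix.neg_mul, ← Matrix.mul_neg,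
      ← Matrix.diagonal_smul, ← Matrix.diagonal_neg]
    rfl
  rw [e1, Matrix.exp_conj _ _ hU, Matrix.exp_diagonal, hinv]
  congr 2
  congr 1
  rw [Pi.exp_def]
  funext a
  push_cast
  rw [Complex.exp_eq_exp_ℂ]

/-- membership in `Gm` in the eigenbasis -/
lemma slp_gm {N : ℕ} (U : Matrix (Fin N) (Fin N) ℂ) (d : Fin N → ℝ) (h1 : Uᴴ * U = 1)
    (y : ℝ) (v : Fin N → ℂ)
    (hv : v ∈ Gm (U * diagonal (fun a => (d a : ℂ)) * Uᴴ) y) (a : Fin N) (ha : d a < y) :
    (Uᴴ *ᵥ v) a = 0 := by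
  unfold Gm at hv
  induction hv using Submodule.span_induction with
  | mem v hv =>
    obtain ⟨x, hx, hv⟩ := hv
    have h3 : diagonal (fun a => (d a : ℂ)) *ᵥ (Uᴴ *ᵥ v) = (x : ℂ) • (Uᴴ *ᵥ v) := by
      have h4 := congrArg (fun u => Uᴴ *ᵥ u) hv
      simp only [Matrix.mulVec_mulVec, Matrix.mulVec_smul] at h4
      rw [Matrix.mulVec_mulVec]
      rw [← h4]
      congr 1
      rw [Matrix.mul_assoc U, ← Matrix.mul_assoc Uᴴ, h1, Matrix.one_mul]
    have h5 := congrFun h3 a
    rw [Matrix.mulVec_diagonal] at h5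
    simp only [Pi.smul_apply, smul_eq_mul] at h5
    have h6 : ((d a : ℂ) - x) * (Uᴴ *ᵥ v) a = 0 := by rw [sub_mul, h5, sub_self]
    rcases mul_eq_zero.1 h6 with h7 | h7
    · exfalso
      have : d a = x := by
        have := sub_eq_zero.1 h7
        exact_mod_cast this
      linarith
    · exact h7
  | zero => simp
  | add u v _ _ hu hv => simp [Matrix.mulVec_add, hu, hv]
  | smul c v _ hv => simp [Matrix.mulVec_smul, hv]

/-- columns of `U` -/
lemma slp_col {N : ℕ} (U : Matrix (Fin N) (Fin N) ℂ) (d : Fin N → ℝ) (h1 : Uᴴ * U = 1)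
    (a : Fin N) :
    (fun r => U r a) ∈ Gm (U * diagonal (fun a => (d a : ℂ)) * Uᴴ) (d a) := by
  refine Submodule.subset_span ⟨d a, le_refl _, ?_⟩
  have e0 : (fun r => U r a) = U *ᵥ (Pi.single a 1) := by
    rw [Matrix.mulVec_single_one]; rfl
  rw [e0, Matrix.mulVec_mulVec, Matrix.mul_assoc, h1, Matrix.mul_one, ← Matrix.mulVec_mulVec,
    ← Matrix.mulVec_smul]
  congr 1
  funext r
  rw [Matrix.mulVec_diagonal]
  by_cases h : r = a
  · subst h; simp
  · simp [Pi.single_eq_of_ne h]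

lemma slp_det_perm {N : ℕ} (M : Matrix (Fin N) (Fin N) ℂ) (h : M.det ≠ 0) :
    ∃ σ : Equiv.Perm (Fin N), ∀ i, M (σ i) i ≠ 0 := by
  rw [Matrix.det_apply] at h
  obtain ⟨σ, _, hσ⟩ := Finset.exists_ne_zero_of_sum_ne_zero h
  refine ⟨σ, fun i hi => hσ ?_⟩
  have h0 : ∏ j, M (σ j) j = 0 := Finset.prod_eq_zero (Finset.mem_univ i) hi
  exact (congrArg (fun z => Equiv.Perm.sign σ • z) h0).trans (smul_zero _)

/-- the matrix in the eigenbasis -/
lemma slp_perm {N : ℕ} (U : Matrix (Fin N) (Fin N) ℂ) (d : Fin N → ℝ) (h1 : Uᴴ * U = 1)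
    (b : Fin N → Fin N → ℂ) (mu : Fin N → ℝ)
    (hb : ∀ y, Gm (U * diagonal (fun a => (d a : ℂ)) * Uᴴ) y =
      Submodule.span ℂ (b '' {j | y ≤ mu j})) :
    ((Uᴴ * Matrix.of (fun a j => b j a)).det ≠ 0) ∧
    (∀ a j, d a < mu j → (Uᴴ * Matrix.of (fun a j => b j a)) a j = 0) ∧
    ∃ σ : Equiv.Perm (Fin N), ∀ j, d (σ j) = mu j := by
  set B : Matrix (Fin N) (Fin N) ℂ := Matrix.of (fun a j => b j a) with hB
  have hC : ∀ a j, d a < mu j → (Uᴴ * B) a j = 0 := by
    intro a j h
    have hm : b j ∈ Gm (U * diagonal (fun a => (d a : ℂ)) * Uᴴ) (mu j) := by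
      rw [hb]
      exact Submodule.subset_span ⟨j, le_refl (mu j), rfl⟩
    exact slp_gm U d h1 (mu j) (b j) hm a h
  have hG : ∀ a, ∃ g : Fin N → ℂ, (∀ j, mu j < d a → g j = 0) ∧
      (fun r => U r a) = ∑ j, g j • b j := by
    intro a
    have hm := slp_col U d h1 a
    rw [hb, Finsupp.mem_span_image_iff_linearCombination] at hm
    obtain ⟨l, hl, hl2⟩ := hm
    refine ⟨l, ?_, ?_⟩
    · intro j hj
      by_contra hne
      have : j ∈ l.support := Finsupp.mem_support_iff.2 hne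
      have := hl this
      have h9 : d a ≤ mu j := this
      linarith
    · rw [← hl2, Finsupp.linearCombination_apply, Finsupp.sum_fintype]
      intro i; simp
  choose g hg1 hg2 using hG
  have hUB : U = B * Matrix.of (fun j a => g a j) := by
    ext r a
    have := congrFun (hg2 a) r
    simp only [Finset.sum_apply, Pi.smul_apply, smul_eq_mul] at this
    rw [this, Matrix.mul_apply]
    refine Finset.sum_congr rfl fun j _ => ?_
    simp [hB, mul_comm]
  have hCG : (Uᴴ * B) * Matrix.of (fun j a => g a j) = 1 := by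
    rw [Matrix.mul_assoc, ← hUB, h1]
  have hdet := congrArg Matrix.det hCG
  rw [Matrix.det_mul, Matrix.det_one] at hdet
  have hd1 : (Uᴴ * B).det ≠ 0 := by
    intro h; rw [h, zero_mul] at hdet; exact zero_ne_one hdet
  have hd2 : (Matrix.of (fun j a => g a j)).det ≠ 0 := by
    intro h; rw [h, mul_zero] at hdet; exact zero_ne_one hdet
  refine ⟨hd1, hC, ?_⟩
  obtain ⟨σ, hσ⟩ := slp_det_perm _ hd1
  obtain ⟨τ, hτ⟩ := slp_det_perm _ hd2
  have k1 : ∀ j, mu j ≤ d (σ j) := fun j => by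
    by_contra h
    exact hσ j (hC _ _ (not_le.1 h))
  have k2 : ∀ a, d a ≤ mu (τ a) := fun a => by
    by_contra h
    exact hτ a (hg1 _ _ (not_le.1 h))
  refine ⟨σ, fun j => ?_⟩
  have s1 : ∑ j, mu j ≤ ∑ j, d (σ j) := Finset.sum_le_sum fun j _ => k1 j
  have s2 : ∑ j, d (σ j) = ∑ j, d j := Equiv.sum_comp σ d
  have s3 : ∑ a, d a ≤ ∑ a, mu (τ a) := Finset.sum_le_sum fun j _ => k2 j
  have s4 : ∑ a, mu (τ a) = ∑ a, mu a := Equiv.sum_comp τ mu
  have s5 : ∑ j, mu j = ∑ j, d (σ j) := le_antisymm s1 (by rw [s2, ← s4]; exact s3)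
  exact ((Finset.sum_eq_sum_iff_of_le fun j _ => k1 j).1 s5 j (Finset.mem_univ j)).symm

/-- the matrix `e^(-sD/2) C e^(s mu/2)` -/
noncomputable def slpC {N : ℕ} (C : Matrix (Fin N) (Fin N) ℂ) (d mu : Fin N → ℝ) (s : ℝ) :
    Matrix (Fin N) (Fin N) ℂ :=
  Matrix.of fun a j => ((Real.exp (-(s / 2 * (d a - mu j))) : ℝ) : ℂ) * C a j

noncomputable def slpL {N : ℕ} (C : Matrix (Fin N) (Fin N) ℂ) (d mu : Fin N → ℝ) :
    Matrix (Fin N) (Fin N) ℂ :=
  Matrix.of fun a j => if d a = mu j then C a j else 0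

lemma slpC_eq {N : ℕ} (C : Matrix (Fin N) (Fin N) ℂ) (d mu : Fin N → ℝ) (s : ℝ) :
    slpC C d mu s = diagonal (fun a => ((Real.exp (-(s / 2 * d a)) : ℝ) : ℂ)) * C *
      diagonal (fun j => ((Real.exp (s / 2 * mu j) : ℝ) : ℂ)) := by
  ext a j
  rw [Matrix.mul_diagonal, Matrix.diagonal_mul]
  simp only [slpC, Matrix.of_apply]
  have : Real.exp (-(s / 2 * (d a - mu j))) =
      Real.exp (-(s / 2 * d a)) * Real.exp (s / 2 * mu j) := by
    rw [← Real.exp_add]; congr 1; ring
  rw [this]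
  push_cast
  ring

lemma slpC_det {N : ℕ} (C : Matrix (Fin N) (Fin N) ℂ) (d mu : Fin N → ℝ) (s : ℝ)
    (h : ∑ a, d a = ∑ j, mu j) : (slpC C d mu s).det = C.det := by
  rw [slpC_eq, Matrix.det_mul, Matrix.det_mul, Matrix.det_diagonal, Matrix.det_diagonal]
  have h1 : ∏ a, ((Real.exp (-(s / 2 * d a)) : ℝ) : ℂ) =
      ((Real.exp (-(s / 2 * ∑ a, d a)) : ℝ) : ℂ) := by
    rw [← Complex.ofReal_prod, ← Real.exp_sum, Finset.sum_neg_distrib, Finset.mul_sum]
  have h2 : ∏ j, ((Real.exp (s / 2 * mu j) : ℝ) : ℂ) =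
      ((Real.exp (s / 2 * ∑ j, mu j) : ℝ) : ℂ) := by
    rw [← Complex.ofReal_prod, ← Real.exp_sum, Finset.mul_sum]
  rw [h1, h2, h, mul_right_comm, ← Complex.ofReal_mul, ← Real.exp_add]
  simp

lemma slpC_tendsto {N : ℕ} (C : Matrix (Fin N) (Fin N) ℂ) (d mu : Fin N → ℝ)
    (hC : ∀ a j, d a < mu j → C a j = 0) :
    Tendsto (slpC C d mu) atTop (𝓝 (slpL C d mu)) := by
  refine tendsto_pi_nhds.2 fun a => tendsto_pi_nhds.2 fun j => ?_
  simp only [slpC, slpL, Matrix.of_apply]
  rcases lt_trichotomy (d a) (mu j) with h | h | h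
  · rw [hC a j h]; simp
  · simp [h]
  · rw [if_neg (ne_of_gt h)]
    have h1 : Tendsto (fun s : ℝ => Real.exp (-(s / 2 * (d a - mu j)))) atTop (𝓝 0) := by
      refine Real.tendsto_exp_neg_atTop_nhds_zero.comp ?_
      have : Tendsto (fun s : ℝ => s * ((d a - mu j) / 2)) atTop atTop :=
        tendsto_id.atTop_mul_const (by linarith)
      refine this.congr fun s => by ring
    have h2 := (Complex.continuous_ofReal.tendsto 0).comp h1
    have h3 := h2.mul_const (C a j)
    simpa using h3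

lemma slpL_det {N : ℕ} (C : Matrix (Fin N) (Fin N) ℂ) (d mu : Fin N → ℝ)
    (hC : ∀ a j, d a < mu j → C a j = 0) (h : ∑ a, d a = ∑ j, mu j) (hdet : C.det ≠ 0) :
    (slpL C d mu).det ≠ 0 := by
  have h1 : Tendsto (fun s => (slpC C d mu s).det) atTop (𝓝 (slpL C d mu).det) :=
    ((Continuous.matrix_det continuous_id).tendsto (slpL C d mu)).comp (slpC_tendsto C d mu hC)
  have h2 : Tendsto (fun s => (slpC C d mu s).det) atTop (𝓝 C.det) := by
    simp only [slpC_det C d mu _ h]
    exact tendsto_const_nhds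
  rw [tendsto_nhds_unique h1 h2]
  exact hdet

lemma slp_card {N p : ℕ} (V : Matrix (Fin N) (Fin p) ℂ) (hV : Vᴴ * V = 1)
    (b : Fin N → Fin N → ℂ) (hli : LinearIndependent ℂ b) (J : Finset (Fin N))
    (hr : LinearMap.range (Matrix.mulVecLin V) = Submodule.span ℂ (b '' (J : Set (Fin N)))) :
    J.card = p := by
  have hinj : Function.Injective (Matrix.mulVecLin V) := by
    intro x y hxy
    simp only [Matrix.mulVecLin_apply] at hxy
    have := congrArg (fun u => Vᴴ *ᵥ u) hxy
    simpa [Matrix.mulVec_mulVec, hV] using this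
  have h1 : Module.finrank ℂ (LinearMap.range (Matrix.mulVecLin V)) = p := by
    rw [LinearMap.finrank_range_of_inj hinj]; simp
  have hb' : LinearIndependent ℂ (fun j : J => b j) := hli.comp _ Subtype.val_injective
  have h2 := finrank_span_eq_card hb'
  have h3 : Set.range (fun j : J => b j) = b '' (J : Set (Fin N)) := by
    ext v; simp
  rw [h3, ← hr, h1] at h2
  simpa using h2.symm

lemma slp_one {N p : ℕ} (U : Matrix (Fin N) (Fin N) ℂ) (d : Fin N → ℝ)
    (V : Matrix (Fin N) (Fin p) ℂ) (hV : Vᴴ * V = 1)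
    (b : Fin N → Fin N → ℂ) (mu : Fin N → ℝ) (hli : LinearIndependent ℂ b)
    (J : Finset (Fin N))
    (hr : LinearMap.range (Matrix.mulVecLin V) = Submodule.span ℂ (b '' (J : Set (Fin N))))
    (hdet : (Uᴴ * Matrix.of (fun a j => b j a)).det ≠ 0)
    (hC : ∀ a j, d a < mu j → (Uᴴ * Matrix.of (fun a j => b j a)) a j = 0)
    (hsum : ∑ a, d a = ∑ j, mu j) :
    Tendsto (fun s : ℝ => Real.log ((Vᴴ * (U * diagonal (fun a =>
      ((Real.exp (-(s * d a)) : ℝ) : ℂ)) * Uᴴ) * V).det.re) / s) atTop (𝓝 (-∑ j ∈ J, mu j)) := by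
  have hcard := slp_card V hV b hli J hr
  set e : Fin p ≃ J := (J.equivFinOfCardEq hcard).symm with he
  set C : Matrix (Fin N) (Fin N) ℂ := Uᴴ * Matrix.of (fun a j => b j a) with hCdef
  have hT : ∀ k : Fin p, ∃ t : Fin p → ℂ, V *ᵥ t = b (e k) := by
    intro k
    have : b (e k) ∈ LinearMap.range (Matrix.mulVecLin V) := by
      rw [hr]; exact Submodule.subset_span ⟨e k, (e k).2, rfl⟩
    obtain ⟨t, ht⟩ := this
    exact ⟨t, by simpa using ht⟩
  choose t ht using hT
  set T : Matrix (Fin p) (Fin p) ℂ := Matrix.of fun r k => t k r with hTdef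
  have hVT : V * T = Matrix.of (fun a k => b (e k) a) := by
    ext a k
    have := congrFun (ht k) a
    simp only [Matrix.mul_apply, Matrix.of_apply, hTdef]
    rw [← this]
    rfl
  have hUVT : Uᴴ * (V * T) = C.submatrix id (fun k => (e k : Fin N)) := by
    rw [hVT]
    ext a k
    simp [hCdef, Matrix.mul_apply]
  have hTdet : T.det ≠ 0 := by
    intro h0
    obtain ⟨v, hv, hv2⟩ := Matrix.exists_mulVec_eq_zero_iff.2 h0
    apply hv
    have h3 : (V * T) *ᵥ v = 0 := by rw [← Matrix.mulVec_mulVec, hv2, Matrix.mulVec_zero]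
    rw [hVT] at h3
    have hli2 : LinearIndependent ℂ (fun k : Fin p => b (e k)) :=
      hli.comp (fun k : Fin p => ((e k : J) : Fin N))
        (fun x y h => e.injective (Subtype.ext h))
    rw [Fintype.linearIndependent_iff] at hli2
    funext k
    refine hli2 v ?_ k
    funext a
    have := congrFun h3 a
    simp only [Matrix.mulVec, dotProduct, Matrix.of_apply, Pi.zero_apply] at this
    simp only [Finset.sum_apply, Pi.smul_apply, smul_eq_mul, Pi.zero_apply]
    rw [← this]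
    exact Finset.sum_congr rfl fun k _ => mul_comm _ _
  -- the matrix Y
  set Y : ℝ → Matrix (Fin N) (Fin p) ℂ :=
    fun s => (slpC C d mu s).submatrix id (fun k => (e k : Fin N)) with hY
  set Y' : Matrix (Fin N) (Fin p) ℂ :=
    (slpL C d mu).submatrix id (fun k => (e k : Fin N)) with hY'
  have hYlim : Tendsto (fun s => ((Y s)ᴴ * Y s).det.re) atTop (𝓝 ((Y'ᴴ * Y').det.re)) := by
    have c1 : Continuous fun M : Matrix (Fin N) (Fin N) ℂ =>
        (((M.submatrix id (fun k => (e k : Fin N)))ᴴ *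
          M.submatrix id (fun k => (e k : Fin N))).det.re) := by
      refine Complex.continuous_re.comp (Continuous.matrix_det (Continuous.matrix_mul ?_ ?_))
      · exact (continuous_id.matrix_submatrix _ _).matrix_conjTranspose
      · exact continuous_id.matrix_submatrix _ _
    exact (c1.tendsto (slpL C d mu)).comp (slpC_tendsto C d mu hC)
  have hYpos : 0 < (Y'ᴴ * Y').det.re := by
    have hinj : Function.Injective Y'.mulVec := by
      have hd := slpL_det C d mu hC hsum hdet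
      have hinv : (slpL C d mu)⁻¹ * slpL C d mu = 1 :=
        Matrix.nonsing_inv_mul _ (isUnit_iff_ne_zero.2 hd)
      intro x y hxy
      have h4 : ((slpL C d mu)⁻¹ * Y') = (1 : Matrix (Fin N) (Fin N) ℂ).submatrix id
          (fun k => (e k : Fin N)) := by
        rw [← hinv]; rfl
      have h5 := congrArg (fun u => (slpL C d mu)⁻¹ *ᵥ u) hxy
      simp only [Matrix.mulVec_mulVec, h4] at h5
      funext k
      have h6 := congrFun h5 (e k)
      have h7 : ∀ z : Fin p → ℂ, ((1 : Matrix (Fin N) (Fin N) ℂ).submatrix id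
          (fun k => (e k : Fin N)) *ᵥ z) (e k) = z k := by
        intro z
        change ∑ k', (1 : Matrix (Fin N) (Fin N) ℂ) (e k) (e k') * z k' = z k
        rw [Finset.sum_eq_single k]
        · rw [Matrix.one_apply_eq, one_mul]
        · intro k' _ hk'
          rw [Matrix.one_apply_ne, zero_mul]
          intro hh
          exact hk' (e.injective (Subtype.ext hh)).symm
        · intro h; exact absurd (Finset.mem_univ _) h
      rw [h7, h7] at h6
      exact h6
    have hpd : (Y'ᴴ * Y').PosDef := Matrix.PosDef.conjTranspose_mul_self Y' hinj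
    have := hpd.det_pos
    exact (Complex.lt_def.1 this).1
  -- the identity
  have hkey : ∀ s : ℝ, ((Y s)ᴴ * Y s).det.re =
      Real.exp (s * ∑ j ∈ J, mu j) * ‖T.det‖ ^ 2 * (Vᴴ * (U * diagonal (fun a =>
      ((Real.exp (-(s * d a)) : ℝ) : ℂ)) * Uᴴ) * V).det.re := by
    intro s
    set D1 : Matrix (Fin N) (Fin N) ℂ :=
      diagonal (fun a => ((Real.exp (-(s / 2 * d a)) : ℝ) : ℂ)) with hD1
    set D2 : Matrix (Fin p) (Fin p) ℂ :=
      diagonal (fun k => ((Real.exp (s / 2 * mu (e k)) : ℝ) : ℂ)) with hD2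
    have hYs : Y s = D1 * (Uᴴ * (V * T)) * D2 := by
      rw [hUVT]
      ext a k
      rw [Matrix.mul_diagonal, Matrix.diagonal_mul]
      simp only [hY, slpC_eq, Matrix.submatrix_apply, id]
      rw [Matrix.mul_diagonal, Matrix.diagonal_mul]
    have hD1h : D1ᴴ = D1 := by
      rw [hD1, Matrix.diagonal_conjTranspose]
      congr 1
      funext a
      exact Complex.conj_ofReal _
    have hD2h : D2ᴴ = D2 := by
      rw [hD2, Matrix.diagonal_conjTranspose]
      congr 1
      funext a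
      exact Complex.conj_ofReal _
    have hD11 : D1 * D1 = diagonal (fun a => ((Real.exp (-(s * d a)) : ℝ) : ℂ)) := by
      rw [hD1, Matrix.diagonal_mul_diagonal]
      congr 1
      funext a
      rw [← Complex.ofReal_mul, ← Real.exp_add]
      congr 2; ring
    have hYY : (Y s)ᴴ * Y s = D2 * (Tᴴ * (Vᴴ * (U * diagonal (fun a =>
      ((Real.exp (-(s * d a)) : ℝ) : ℂ)) * Uᴴ) * V) * T) * D2 := by
      rw [hYs, ← hD11]
      simp only [Matrix.conjTranspose_mul, Matrix.conjTranspose_conjTranspose, hD1h, hD2h,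
        Matrix.mul_assoc]
    have hD2det : D2.det = ((Real.exp (s / 2 * ∑ j ∈ J, mu j) : ℝ) : ℂ) := by
      rw [hD2, Matrix.det_diagonal, ← Complex.ofReal_prod, ← Real.exp_sum, ← Finset.mul_sum]
      congr 3
      rw [Equiv.sum_comp e (fun j : J => mu j)]
      exact Finset.sum_coe_sort J mu
    rw [hYY, Matrix.det_mul, Matrix.det_mul, Matrix.det_mul, Matrix.det_mul,
      Matrix.det_conjTranspose, hD2det]
    set δ := (Vᴴ * (U * diagonal (fun a =>
      ((Real.exp (-(s * d a)) : ℝ) : ℂ)) * Uᴴ) * V).det with hδ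
    have e1 : ((Real.exp (s / 2 * ∑ j ∈ J, mu j) : ℝ) : ℂ) * (star T.det * δ * T.det) *
        ((Real.exp (s / 2 * ∑ j ∈ J, mu j) : ℝ) : ℂ) =
        ((Real.exp (s * ∑ j ∈ J, mu j) * ‖T.det‖ ^ 2 : ℝ) : ℂ) * δ := by
      have e2 : Real.exp (s * ∑ j ∈ J, mu j) =
          Real.exp (s / 2 * ∑ j ∈ J, mu j) * Real.exp (s / 2 * ∑ j ∈ J, mu j) := by
        rw [← Real.exp_add]; congr 1; ring
      have e3 : star T.det * T.det = ((‖T.det‖ ^ 2 : ℝ) : ℂ) := by
        rw [Complex.star_def, Complex.conj_mul']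
        push_cast; rfl
      rw [e2]
      push_cast
      have e4 : ((‖T.det‖ : ℝ) : ℂ) ^ 2 = star T.det * T.det := by rw [e3]; push_cast; rfl
      rw [e4]
      ring
    rw [e1, Complex.re_ofReal_mul]
  -- conclusion
  set m : ℝ := ∑ j ∈ J, mu j with hm
  set K : ℝ := Real.log (‖T.det‖ ^ 2) with hK
  have hTpos : 0 < ‖T.det‖ ^ 2 := by positivity
  have hev : ∀ᶠ s in atTop, 0 < s ∧ 0 < ((Y s)ᴴ * Y s).det.re :=
    (eventually_gt_atTop 0).and (hYlim.eventually (lt_mem_nhds hYpos))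
  have hlog : Tendsto (fun s => Real.log (((Y s)ᴴ * Y s).det.re) - K) atTop
      (𝓝 (Real.log ((Y'ᴴ * Y').det.re) - K)) :=
    (hYlim.log hYpos.ne').sub_const K
  have hdiv : Tendsto (fun s => (Real.log (((Y s)ᴴ * Y s).det.re) - K) / s) atTop (𝓝 0) :=
    hlog.div_atTop tendsto_id
  have hfin : Tendsto (fun s => (Real.log (((Y s)ᴴ * Y s).det.re) - K) / s - m) atTop
      (𝓝 (-m)) := by
    simpa using hdiv.sub_const m
  refine hfin.congr' ?_
  filter_upwards [hev] with s hs
  obtain ⟨hs0, hg⟩ := hs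
  rw [hkey s] at hg ⊢
  set δ := (Vᴴ * (U * diagonal (fun a =>
      ((Real.exp (-(s * d a)) : ℝ) : ℂ)) * Uᴴ) * V).det.re with hδ
  have hδpos : 0 < δ := by
    by_contra hn
    have : Real.exp (s * m) * ‖T.det‖ ^ 2 * δ ≤ 0 :=
      mul_nonpos_of_nonneg_of_nonpos (by positivity) (not_lt.1 hn)
    linarith
  rw [Real.log_mul (by positivity) hδpos.ne', Real.log_mul (by positivity) hTpos.ne',
    Real.log_exp]
  field_simp
  ring

theorem hSLP (hHSL : StHSL) : StSLP := by
  intro N w F ξ b lam mu c hw hc1 hc0 hV hlam hξ hli hF hG hf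
  obtain ⟨U, d, h1, h2, hspec⟩ := slp_spec hξ
  rw [hspec] at hG hf
  obtain ⟨hdet, hC, σ, hσ⟩ := slp_perm U d h1 b mu hG
  have hsum : ∑ a, d a = ∑ j, mu j := by
    rw [← Equiv.sum_comp σ d]; exact Finset.sum_congr rfl fun j _ => hσ j
  have hsum2 : ∑ a, d a ^ 2 = ∑ j, mu j ^ 2 := by
    rw [← Equiv.sum_comp σ (fun a => d a ^ 2)]
    exact Finset.sum_congr rfl fun j _ => by rw [hσ j]
  set J : Fin w.m → Finset (Fin N) :=
    fun i => Finset.univ.filter (fun j => (i : ℕ) + 1 ≤ lam j) with hJ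
  have hJr : ∀ i, LinearMap.range (Matrix.mulVecLin (w.V i)) =
      Submodule.span ℂ (b '' (J i : Set (Fin N))) := by
    intro i
    rw [hV i, hF]
    congr 2
    ext j; simp [hJ]
  have hcard : ∀ i, (J i).card = w.p i := fun i =>
    slp_card (w.V i) (hw.orth i) b hli (J i) (hJr i)
  have hcnt : ∀ j, (Finset.univ.filter (fun i : Fin w.m => (i : ℕ) + 1 ≤ lam j)).card =
      lam j := by
    intro j
    have h3 : (Finset.univ.filter (fun i : Fin w.m => (i : ℕ) + 1 ≤ lam j)).card =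
        ((Finset.range w.m).filter (fun i => i + 1 ≤ lam j)).card := by
      rw [Finset.card_filter, Finset.card_filter, Finset.sum_range]
    rw [h3]
    have h4 : (Finset.range w.m).filter (fun i => i + 1 ≤ lam j) = Finset.range (lam j) := by
      ext i
      have := hlam j
      simp only [Finset.mem_filter, Finset.mem_range]
      omega
    rw [h4, Finset.card_range]
  refine ⟨?_, ?_, ?_⟩
  · -- slope
    have hlim : Tendsto (fun s : ℝ => w.f (NormedSpace.exp (-((s : ℂ) •
        (U * diagonal (fun a => (d a : ℂ)) * Uᴴ)))) / s) atTop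
        (𝓝 (∑ i, -∑ j ∈ J i, mu j)) := by
      have h5 := tendsto_finsetSum Finset.univ fun i (_ : i ∈ Finset.univ) =>
        slp_one U d (w.V i) (hw.orth i) b mu hli (J i) (hJr i) hdet hC hsum
      refine h5.congr fun s => ?_
      rw [slp_exp U d h1 h2 s]
      unfold WF.f
      rw [hc0, zero_mul, add_zero, Finset.sum_div]
      exact Finset.sum_congr rfl fun i _ => by rw [hc1 i, one_mul]
    have hle : ∑ i, -∑ j ∈ J i, mu j ≤ -c := by
      refine le_of_tendsto hlim ?_
      filter_upwards [eventually_gt_atTop 0] with s hs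
      rw [div_le_iff₀ hs]
      have := hf s hs.le
      linarith
    have hS : ∑ i, -∑ j ∈ J i, mu j = -∑ j, (lam j : ℝ) * mu j := by
      rw [Finset.sum_neg_distrib]
      congr 1
      have h6 : ∀ i, ∑ j ∈ J i, mu j = ∑ j, if (i : ℕ) + 1 ≤ lam j then mu j else 0 := by
        intro i
        rw [hJ, Finset.sum_filter]
      rw [Finset.sum_congr rfl fun i _ => h6 i, Finset.sum_comm]
      refine Finset.sum_congr rfl fun j _ => ?_
      rw [← Finset.sum_filter, Finset.sum_const, hcnt j, nsmul_eq_mul]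
    rw [hS] at hle
    linarith
  · -- trace
    rw [← hsum2]
    have h7 : (hs ξ : ℂ) = (ξᴴ * ξ).trace := by
      unfold hs
      rw [Matrix.trace]
      simp only [Matrix.diag_apply, Matrix.mul_apply, Matrix.conjTranspose_apply]
      push_cast
      rw [Finset.sum_comm]
      refine Finset.sum_congr rfl fun i _ => Finset.sum_congr rfl fun j _ => ?_
      rw [Complex.star_def, Complex.conj_mul']
    have h8 : (ξᴴ * ξ).trace = ((∑ a, d a ^ 2 : ℝ) : ℂ) := by
      rw [hξ.eq]
      conv_lhs => rw [hspec]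
      have h9 : U * diagonal (fun a => (d a : ℂ)) * Uᴴ *
          (U * diagonal (fun a => (d a : ℂ)) * Uᴴ) =
          U * (diagonal (fun a => (d a : ℂ)) * diagonal (fun a => (d a : ℂ))) * Uᴴ := by
        rw [Matrix.mul_assoc (U * diagonal (fun a => (d a : ℂ))) Uᴴ, ← Matrix.mul_assoc Uᴴ,
          ← Matrix.mul_assoc Uᴴ, h1, Matrix.one_mul]
        simp only [Matrix.mul_assoc]
      rw [h9, Matrix.trace_mul_comm, ← Matrix.mul_assoc, h1, Matrix.one_mul,
        Matrix.diagonal_mul_diagonal, Matrix.trace_diagonal]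
      push_cast
      exact Finset.sum_congr rfl fun a _ => by ring
    have h10 : (hs ξ : ℂ) = ((∑ a, d a ^ 2 : ℝ) : ℂ) := h7.trans h8
    exact_mod_cast h10.symm
  · -- Hilbert-Schmidt norm of L
    obtain ⟨_, _, h11⟩ := hHSL N w 1 hw isUnit_one
    rw [h11, hc0]
    have h12 : ∀ i i', (min (w.p i) (w.p i') : ℕ) = ∑ j, if ((i : ℕ) + 1 ≤ lam j) ∧
        ((i' : ℕ) + 1 ≤ lam j) then 1 else 0 := by
      intro i i'
      rw [← Finset.card_filter, ← hcard i, ← hcard i']
      rcases le_total i i' with h | h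
      · have h13 : J i' ⊆ J i := by
          intro j hj
          simp only [hJ, Finset.mem_filter, Finset.mem_univ, true_and] at hj ⊢
          have : (i : ℕ) ≤ i' := h
          omega
        rw [min_eq_right (Finset.card_le_card h13)]
        congr 1
        ext j
        simp only [hJ, Finset.mem_filter, Finset.mem_univ, true_and]
        have : (i : ℕ) ≤ i' := h
        omega
      · have h13 : J i ⊆ J i' := by
          intro j hj
          simp only [hJ, Finset.mem_filter, Finset.mem_univ, true_and] at hj ⊢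
          have : (i' : ℕ) ≤ i := h
          omega
        rw [min_eq_left (Finset.card_le_card h13)]
        congr 1
        ext j
        simp only [hJ, Finset.mem_filter, Finset.mem_univ, true_and]
        have : (i' : ℕ) ≤ i := h
        omega
    have h14 : ∑ i, ∑ i', w.c i * w.c i' * (min (w.p i) (w.p i') : ℕ) =
        ∑ j, (lam j : ℝ) ^ 2 := by
      have h15 : ∀ i i', w.c i * w.c i' * ((min (w.p i) (w.p i') : ℕ) : ℝ) =
          ∑ j, (if (i : ℕ) + 1 ≤ lam j then (1 : ℝ) else 0) *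
            (if (i' : ℕ) + 1 ≤ lam j then 1 else 0) := by
        intro i i'
        rw [hc1 i, hc1 i', h12 i i', one_mul, one_mul]
        push_cast
        refine Finset.sum_congr rfl fun j _ => ?_
        by_cases a1 : (i : ℕ) + 1 ≤ lam j <;> by_cases a2 : (i' : ℕ) + 1 ≤ lam j <;>
          simp [a1, a2]
      rw [Finset.sum_congr rfl fun i _ => Finset.sum_congr rfl fun i' _ => h15 i i']
      rw [Finset.sum_congr rfl fun i _ => Finset.sum_comm, Finset.sum_comm]
      refine Finset.sum_congr rfl fun j _ => ?_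
      have h16 : ∑ i : Fin w.m, (if (i : ℕ) + 1 ≤ lam j then (1 : ℝ) else 0) = lam j := by
        rw [Finset.sum_boole, hcnt j]
      rw [← Finset.sum_mul_sum, h16, pow_two]
    rw [h14]; simp

end Pool.Agent.Helper27.KP
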